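import Pool.Agent.Y520.AR.Stm
import Pool.Agent.H947R3.Lev

/-!
# AR-BAR: boundary barrier
-/

set_option autoImplicit false

open MeasureTheory Set Filter Topology Laplacian InnerProductSpace
open scoped ContDiff

namespace Pool.Agent.Y534.AR

open Pool.Agent.H947R3 Pool.Agent.Y520.AR

/-- the barrier -/
noncomputable def bar {n : ℕ} (d : E n → ℝ) (P σ : ℝ) : E n → ℝ :=
  fun y => P * (2 * σ * d y - d y ^ 2 / 2)

/-- Laplacian and derivative of the barrier. -/
lemma barrier_calc {n : ℕ} {d : E n → ℝ} (hd : ContDiff ℝ 2 d) (P σ : ℝ) (x : E n) :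
    Δ (bar d P σ) x = P * ((2 * σ - d x) * Δ d x - ∑ i, (pd d i x) ^ 2) ∧
    ∀ v, fderiv ℝ (bar d P σ) x v = P * (2 * σ - d x) * fderiv ℝ d x v := by
  have hdd : ∀ y, DifferentiableAt ℝ d y := fun y => hd.differentiable (by norm_num) y
  have h1 : ∀ y, HasFDerivAt (bar d P σ)
      ((P * (2 * σ - d y)) • fderiv ℝ d y) y := by
    intro y
    have h2 : HasDerivAt (fun t : ℝ => P * (2 * σ * t - t ^ 2 / 2)) (P * (2 * σ - d y)) (d y) := by
      have h3 := (((hasDerivAt_id (d y)).const_mul (2 * σ)).sub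
        (((hasDerivAt_id (d y)).pow 2).div_const 2)).const_mul P
      refine h3.congr_deriv ?_
      simp
    exact h2.comp_hasFDerivAt y (hdd y).hasFDerivAt
  have hv2 : ContDiff ℝ 2 (bar d P σ) := by
    unfold bar
    fun_prop
  constructor
  · rw [lap_eq hv2.contDiffAt, lap_eq hd.contDiffAt, Finset.mul_sum, ← Finset.sum_sub_distrib,
      Finset.mul_sum]
    refine Finset.sum_congr rfl fun i _ => ?_
    have h2 : pd (bar d P σ) i =
        fun y => P * (2 * σ - d y) * pd d i y := by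
      funext y
      unfold pd
      rw [(h1 y).fderiv]
      simp
    rw [h2]
    have h3 : DifferentiableAt ℝ (pd d i) x := by
      have h4 : ContDiffOn ℝ 1 (pd d i) univ :=
        contDiffOn_one_pd isOpen_univ hd.contDiffOn i
      exact (h4.contDiffAt univ_mem).differentiableAt (by norm_num)
    have h5 : HasFDerivAt (fun y => P * (2 * σ - d y)) (P • -fderiv ℝ d x) x := by
      have h6 := ((hdd x).hasFDerivAt.const_sub (2 * σ)).const_mul P
      exact h6
    have h7 : HasFDerivAt (fun y => P * (2 * σ - d y) * pd d i y)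
        ((P * (2 * σ - d x)) • fderiv ℝ (pd d i) x + pd d i x • P • -fderiv ℝ d x) x :=
      h5.mul h3.hasFDerivAt
    have h8 : pd (fun y => P * (2 * σ - d y) * pd d i y) i x =
        P * (2 * σ - d x) * fderiv ℝ (pd d i) x (bv i) + pd d i x * (P * (-fderiv ℝ d x (bv i))) := by
      show fderiv ℝ (fun y => P * (2 * σ - d y) * pd d i y) x (bv i) = _
      rw [h7.fderiv]
      simp
    rw [h8]
    unfold pd
    ring
  · intro v
    rw [(h1 x).fderiv]
    simp

/-- **BAR** -/
theorem t_BAR : S_BAR := by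
  intro n Ω d c B hΩ hD
  have hdc : Continuous d := hΩ.c2.continuous
  have hΩo : IsOpen Ω := by
    have h1 : Ω = {x | 0 < d x} := by ext x; exact hΩ.mem x
    rw [h1]
    exact isOpen_lt continuous_const hdc
  have hK0 : IsCompact (closure Ω) := hΩ.bounded.isCompact_closure
  have hd0 : ∀ x ∈ closure Ω, 0 ≤ d x := by
    intro x hx
    have h1 : closure Ω ⊆ {x | 0 ≤ d x} :=
      closure_minimal (fun y hy => ((hΩ.mem y).1 hy).le) (isClosed_le continuous_const hdc)
    exact h1 hx
  have hfr : ∀ x ∈ closure Ω, x ∉ Ω → x ∈ frontier Ω := by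
    intro x hx hx'
    rw [frontier, hΩo.interior_eq]
    exact ⟨hx, hx'⟩
  have hfc : Continuous (fderiv ℝ d) := hΩ.c2.continuous_fderiv (by norm_num)
  have hlc : Continuous (Δ d) := by
    rw [← continuousOn_univ]
    exact continuousOn_lap isOpen_univ hΩ.c2.contDiffOn
  -- upper bound
  obtain ⟨C, hC⟩ := hK0.exists_bound_of_continuousOn (f := fun x => |Δ d x| + B * ‖fderiv ℝ d x‖)
    (by fun_prop)
  set C2 := max C 1 with hC2
  have hC2p : 0 < C2 := lt_of_lt_of_le one_pos (le_max_right _ _)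
  have hC2' : ∀ x ∈ closure Ω, |Δ d x| + B * ‖fderiv ℝ d x‖ ≤ C2 := fun x hx =>
    ((le_abs_self _).trans (hC x hx)).trans (le_max_left _ _)
  -- lower bound
  have hlow : ∃ c0 : ℝ, 0 < c0 ∧ ∀ x ∈ closure Ω, 2 * c0 ≤ d x + ‖fderiv ℝ d x‖ := by
    rcases (closure Ω).eq_empty_or_nonempty with h | h
    · exact ⟨1, one_pos, fun x hx => by rw [h] at hx; exact hx.elim⟩
    · obtain ⟨y, hy, hmin⟩ := hK0.exists_isMinOn (f := fun x => d x + ‖fderiv ℝ d x‖) h
        (by fun_prop)
      have hpos : 0 < d y + ‖fderiv ℝ d y‖ := by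
        by_cases hyΩ : y ∈ Ω
        · have h1 := (hΩ.mem y).1 hyΩ
          have h2 := norm_nonneg (fderiv ℝ d y)
          linarith
        · have h1 := norm_pos_iff.2 (hΩ.grad y (hfr y hy hyΩ))
          have h2 := hd0 y hy
          linarith
      refine ⟨(d y + ‖fderiv ℝ d y‖) / 2, by positivity, fun x hx => ?_⟩
      have h3 : d y + ‖fderiv ℝ d y‖ ≤ d x + ‖fderiv ℝ d x‖ := hmin hx
      linarith
  obtain ⟨c0, hc0, hlow⟩ := hlow
  set s2 := min c0 (c0 ^ 2 / (4 * C2)) with hs2
  have hs2p : 0 < s2 := lt_min hc0 (by positivity)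
  set G := max (4 / c0 ^ 2) 1 with hG
  have hG1 : 1 ≤ G := le_max_right _ _
  have hGp : 0 < G := by linarith
  have hGc : 4 ≤ G * c0 ^ 2 := by
    have h1 : 4 / c0 ^ 2 ≤ G := le_max_left _ _
    rw [div_le_iff₀ (by positivity)] at h1
    exact h1
  refine ⟨(s2 / 2) ^ 2, 1 / (8 * G) ^ 2, by positivity, by positivity, ?_⟩
  intro u M K hu hM hK hMK huM huK
  set σ := Real.sqrt (M / K) with hσ
  have hσ2 : σ ^ 2 = M / K := Real.sq_sqrt (by positivity)
  have hσp : 0 < σ := Real.sqrt_pos.2 (by positivity)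
  have hσ2' : K * σ ^ 2 = M := by rw [hσ2]; field_simp
  have hσs : σ ≤ s2 / 2 := by
    have h1 : M / K ≤ (s2 / 2) ^ 2 := by
      rw [div_le_iff₀ hK]
      exact hMK
    have h2 := Real.sqrt_le_sqrt h1
    rw [Real.sqrt_sq (by positivity)] at h2
    exact h2
  set w : E n → ℝ := fun x => G * K * (2 * σ * d x - d x ^ 2 / 2) - u x with hw
  -- the layer
  set L : Set (E n) := {x | 0 < d x ∧ d x < σ} with hL
  have hLo : IsOpen L := (isOpen_lt continuous_const hdc).inter (isOpen_lt hdc continuous_const)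
  have hLΩ : L ⊆ Ω := fun x hx => (hΩ.mem x).2 hx.1
  have hLc : closure L ⊆ closure Ω := closure_mono hLΩ
  have hLd : ∀ x ∈ closure L, d x ≤ σ := by
    intro x hx
    have h1 : closure L ⊆ {x | d x ≤ σ} :=
      closure_minimal (fun y hy => hy.2.le) (isClosed_le hdc continuous_const)
    exact h1 hx
  have hwc : ContinuousOn w (closure L) := by
    have h1 : Continuous (fun x => G * K * (2 * σ * d x - d x ^ 2 / 2)) := by fun_prop
    exact h1.continuousOn.sub (hu.cont.mono hLc)
  have hwpos : ∀ x ∈ closure L, 0 ≤ w x := by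
    by_contra hcon
    push Not at hcon
    obtain ⟨x0, hx0, hx0'⟩ := hcon
    obtain ⟨y, hy, hmin⟩ := (hK0.of_isClosed_subset isClosed_closure hLc).exists_isMinOn
      ⟨x0, hx0⟩ hwc
    have hwy : w y < 0 := lt_of_le_of_lt (hmin hx0) hx0'
    have hyc : y ∈ closure Ω := hLc hy
    have hdy0 := hd0 y hyc
    have hdyσ := hLd y hy
    have hyL : y ∈ L := by
      refine ⟨lt_of_le_of_ne hdy0 ?_, lt_of_le_of_ne hdyσ ?_⟩
      · intro h
        have hyn : y ∉ Ω := by
          rw [hΩ.mem, ← h]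
          exact lt_irrefl 0
        have h1 := hu.bdry y (hfr y hyc hyn)
        simp only [hw, h1, ← h] at hwy
        norm_num at hwy
      · intro h
        have hyΩ : y ∈ Ω := by
          rw [hΩ.mem, h]
          exact hσp
        have h1 := huM y hyΩ
        have h2 : w y = 3 / 2 * G * (K * σ ^ 2) - u y := by
          simp only [hw, h]
          ring
        rw [hσ2'] at h2
        rw [h2] at hwy
        nlinarith
    have hyΩ := hLΩ hyL
    have hloc : IsLocalMin w y := by
      filter_upwards [hLo.mem_nhds hyL] with z hz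
      exact hmin (subset_closure hz)
    obtain ⟨hb1, hb2⟩ := barrier_calc hΩ.c2 (G * K) σ y
    set v : E n → ℝ := bar d (G * K) σ with hv
    have hv2 : ContDiffAt ℝ 2 v y := by
      have h1 : ContDiff ℝ 2 d := hΩ.c2
      have h2 : ContDiff ℝ 2 v := by
        rw [hv]
        unfold bar
        fun_prop
      exact h2.contDiffAt
    have hu2 : ContDiffAt ℝ 2 u y := hu.c2.contDiffAt (hΩo.mem_nhds hyΩ)
    have hwe : w = v - u := rfl
    have hw2 : ContDiffAt ℝ 2 w y := by
      rw [hwe]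
      exact hv2.sub hu2
    have hlw : 0 ≤ Δ w y := lap_nonneg_of_isLocalMin hw2 hloc
    have hlw' : Δ w y = Δ v y - Δ u y := by
      rw [hwe, ContDiffAt.laplacian_sub hv2 hu2]
    have hfw : fderiv ℝ w y = 0 := hloc.fderiv_eq_zero
    have hfw' : fderiv ℝ v y (c y) = fderiv ℝ u y (c y) := by
      have h1 : HasFDerivAt w (fderiv ℝ v y - fderiv ℝ u y) y := by
        have h2 := (hv2.differentiableAt (by norm_num)).hasFDerivAt
        have h3 := (hu2.differentiableAt (by norm_num)).hasFDerivAt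
        exact h2.sub h3
      rw [h1.fderiv] at hfw
      have h4 := sub_eq_zero.1 hfw
      rw [h4]
    have hk := huK y hyΩ
    rw [hb2, ] at hfw'
    -- the estimate
    have hgrad : c0 ^ 2 ≤ ∑ i, (pd d i y) ^ 2 := by
      have h1 := norm_sq_le_sum (fderiv ℝ d y)
      have h2 : c0 ≤ ‖fderiv ℝ d y‖ := by
        have h3 := hlow y hyc
        have h4 : d y ≤ c0 := by
          have h5 : s2 ≤ c0 := min_le_left _ _
          have h6 := hyL.2
          linarith
        linarith
      have h3 : c0 ^ 2 ≤ ‖fderiv ℝ d y‖ ^ 2 := by gcongr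
      exact h3.trans h1
    have hcf : |fderiv ℝ d y (c y)| ≤ B * ‖fderiv ℝ d y‖ := by
      have h1 := (fderiv ℝ d y).le_opNorm (c y)
      rw [Real.norm_eq_abs] at h1
      have h2 := hD.bd y hyΩ
      have h3 := norm_nonneg (fderiv ℝ d y)
      nlinarith
    have hX : |Δ d y - fderiv ℝ d y (c y)| ≤ C2 := by
      have h1 := hC2' y hyc
      have h2 := abs_sub (Δ d y) (fderiv ℝ d y (c y))
      linarith
    have hsC : 2 * σ * C2 ≤ c0 ^ 2 / 2 := by
      have h1 : s2 ≤ c0 ^ 2 / (4 * C2) := min_le_right _ _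
      rw [le_div_iff₀ (by positivity)] at h1
      nlinarith
    have hY : (2 * σ - d y) * (Δ d y - fderiv ℝ d y (c y)) ≤ 2 * σ * C2 := by
      have h1 := (abs_le.1 hX).2
      have h2 : 0 ≤ 2 * σ - d y := by linarith [hyL.2]
      have h3 : 2 * σ - d y ≤ 2 * σ := by linarith [hyL.1]
      calc (2 * σ - d y) * (Δ d y - fderiv ℝ d y (c y)) ≤ (2 * σ - d y) * C2 :=
            mul_le_mul_of_nonneg_left h1 h2
        _ ≤ 2 * σ * C2 := mul_le_mul_of_nonneg_right h3 hC2p.le
    have hfin : G * K * (c0 ^ 2 / 2) ≤ K := by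
      have h1 : Δ u y ≤ Δ v y := by linarith
      have h2 : -(Δ v y) + fderiv ℝ u y (c y) ≤ K := by linarith
      rw [hb1, ← hfw'] at h2
      have h3 : G * K * (c0 ^ 2 / 2) ≤ G * K * ((∑ i, (pd d i y) ^ 2) -
          (2 * σ - d y) * (Δ d y - fderiv ℝ d y (c y))) := by
        apply mul_le_mul_of_nonneg_left _ (by positivity)
        linarith
      calc _ ≤ _ := h3
        _ = -(G * K * ((2 * σ - d y) * Δ d y - ∑ i, (pd d i y) ^ 2)) +
            G * K * (2 * σ - d y) * fderiv ℝ d y (c y) := by ring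
        _ ≤ K := h2
    have h9 : 2 * K ≤ G * K * (c0 ^ 2 / 2) := by
      have h10 : K * 4 ≤ K * (G * c0 ^ 2) := mul_le_mul_of_nonneg_left hGc hK.le
      linarith
    linarith
  -- conclusion
  intro x hx hxd
  have hdx := (hΩ.mem x).1 hx
  have h1 : d x ^ 2 ≤ (σ / (8 * G)) ^ 2 := by
    rw [div_pow, hσ2]
    have h2 : d x ^ 2 * K ≤ 1 / (8 * G) ^ 2 * M := hxd
    rw [div_div, le_div_iff₀ (by positivity)]
    have h3 : d x ^ 2 * (K * (8 * G) ^ 2) = (d x ^ 2 * K) * (8 * G) ^ 2 := by ring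
    rw [h3]
    calc (d x ^ 2 * K) * (8 * G) ^ 2 ≤ (1 / (8 * G) ^ 2 * M) * (8 * G) ^ 2 :=
          mul_le_mul_of_nonneg_right h2 (by positivity)
      _ = M := by field_simp
  have h2 : d x ≤ σ / (8 * G) := by
    have h3 := abs_le_of_sq_le_sq h1 (by positivity)
    exact (le_abs_self _).trans h3
  have h3 : σ / (8 * G) < σ := by
    rw [div_lt_iff₀ (by positivity)]
    nlinarith
  have hxL : x ∈ L := ⟨hdx, lt_of_le_of_lt h2 h3⟩
  have h4 := hwpos x (subset_closure hxL)
  have h5 : u x ≤ G * K * (2 * σ * d x - d x ^ 2 / 2) := by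
    simp only [hw] at h4
    linarith
  have h6 : G * K * (2 * σ * d x - d x ^ 2 / 2) ≤ G * K * (2 * σ * (σ / (8 * G))) := by
    apply mul_le_mul_of_nonneg_left _ (by positivity)
    have h7 : 2 * σ * d x ≤ 2 * σ * (σ / (8 * G)) := mul_le_mul_of_nonneg_left h2 (by positivity)
    have h8 := sq_nonneg (d x)
    linarith
  have h7 : G * K * (2 * σ * (σ / (8 * G))) = K * σ ^ 2 / 4 := by
    field_simp
    ring
  rw [h7, hσ2'] at h6
  linarith

end Pool.Agent.Y534.AR
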