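import Pool.Agent.Y520.AR.Stm
import Pool.Agent.H947R3.Stab

/-!
# AR-DIVG and AR-STAB
-/

set_option autoImplicit false

open MeasureTheory Set Filter Topology Laplacian InnerProductSpace
open scoped ContDiff

namespace Pool.Agent.Y534.AR

open Pool.Agent.H947R3 Pool.Agent.Y520.AR

variable {n : ℕ}

/-- expansion in coordinates -/
lemma fderiv_apply_eq (ψ : E n → ℝ) (c : E n → E n) (x : E n) :
    fderiv ℝ ψ x (c x) = ∑ i, (c x i) * pd ψ i x := by
  have h1 : c x = ∑ i, (c x i) • (bv i : E n) := by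
    have h2 := (EuclideanSpace.basisFun (Fin n) ℝ).sum_repr (c x)
    simp only [EuclideanSpace.basisFun_repr] at h2
    exact h2.symm
  conv_lhs => rw [h1]
  rw [map_sum]
  refine Finset.sum_congr rfl fun i _ => ?_
  rw [map_smul, smul_eq_mul]
  rfl

lemma contDiffOn_coord {Ω : Set (E n)} {c : E n → E n} (hc : ContDiffOn ℝ 1 c Ω) (i : Fin n) :
    ContDiffOn ℝ 1 (fun x => c x i) Ω := by
  rw [contDiffOn_euclidean] at hc
  exact hc i

lemma pd_coord {Ω : Set (E n)} (hΩ : IsOpen Ω) {c : E n → E n} (hc : ContDiffOn ℝ 1 c Ω)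
    {x : E n} (hx : x ∈ Ω) (i j : Fin n) :
    pd (fun x => c x i) j x = fderiv ℝ c x (bv j) i := by
  have h1 : DifferentiableAt ℝ c x :=
    (hc.contDiffAt (hΩ.mem_nhds hx)).differentiableAt (by norm_num)
  have h2 : HasFDerivAt (fun y => c y i)
      ((EuclideanSpace.proj i : E n →L[ℝ] ℝ).comp (fderiv ℝ c x)) x :=
    (EuclideanSpace.proj i : E n →L[ℝ] ℝ).hasFDerivAt.comp x h1.hasFDerivAt
  unfold pd
  rw [h2.fderiv]
  rfl

/-- **DIVG** -/
theorem t_DIVG : S_DIVG := by
  intro n Ω c ψ hΩ hc hψ hcs hs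
  have hint1 : ∀ i, Integrable (fun x => c x i * pd ψ i x) := fun i =>
    integrable_mul_of_tsupport hΩ (contDiffOn_coord hc i).continuousOn (continuous_pd hψ i)
      (hasCompactSupport_pd hcs i) ((tsupport_pd_subset ψ i).trans hs)
  have hint2 : ∀ i, Integrable (fun x => pd (fun x => c x i) i x * ψ x) := fun i =>
    integrable_mul_of_tsupport hΩ (continuousOn_pd hΩ (contDiffOn_coord hc i) i)
      hψ.continuous hcs hs
  have hint3 : ∀ i, Integrable (fun x => c x i * ψ x) := fun i =>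
    integrable_mul_of_tsupport hΩ (contDiffOn_coord hc i).continuousOn hψ.continuous hcs hs
  have key : ∀ i, ∫ x, c x i * pd ψ i x = - ∫ x, pd (fun x => c x i) i x * ψ x := by
    intro i
    exact integral_mul_fderiv_eq_neg_fderiv_mul_of_integrable (f := fun x => c x i) (g := ψ)
      (v := bv i) (hint2 i) (hint1 i) (hint3 i)
      (fun x hx => ((contDiffOn_coord hc i).contDiffAt
        (hΩ.mem_nhds (hs hx))).differentiableAt (by norm_num))
      (fun x _ => hψ.differentiable (by norm_num) x)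
  have e1 : (fun x => fderiv ℝ ψ x (c x)) = fun x => ∑ i, c x i * pd ψ i x := by
    funext x
    exact fderiv_apply_eq ψ c x
  have e2 : (fun x => dv c x * ψ x) = fun x => ∑ i, pd (fun x => c x i) i x * ψ x := by
    funext x
    by_cases hx : x ∈ Ω
    · unfold dv
      rw [Finset.sum_mul]
      refine Finset.sum_congr rfl fun i _ => ?_
      rw [pd_coord hΩ hc hx i i]
    · have h0 : ψ x = 0 := image_eq_zero_of_notMem_tsupport (fun h => hx (hs h))
      simp [h0]
  have i1 : Integrable (fun x => fderiv ℝ ψ x (c x)) := by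
    rw [e1]
    exact integrable_finsetSum _ fun i _ => hint1 i
  have i2 : Integrable (fun x => dv c x * ψ x) := by
    rw [e2]
    exact integrable_finsetSum _ fun i _ => hint2 i
  refine ⟨i1, i2, ?_⟩
  have e1' : ∫ x, fderiv ℝ ψ x (c x) = ∫ x, ∑ i, c x i * pd ψ i x := by rw [e1]
  have e2' : ∫ x, dv c x * ψ x = ∫ x, ∑ i, pd (fun x => c x i) i x * ψ x := by rw [e2]
  rw [e1', e2', integral_finsetSum _ (fun i _ => hint1 i), integral_finsetSum _ (fun i _ => hint2 i),
    ← Finset.sum_neg_distrib]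
  exact Finset.sum_congr rfl fun i _ => key i

/-- **STAB** -/
theorem t_STAB : S_STAB := by
  intro n Ω c B z V φ hΩ hD hz hpos hV hle hφ hc hs
  set ψ : E n → ℝ := fun x => φ x * (φ x * (z x)⁻¹) with hψdef
  have hsub : tsupport ψ ⊆ tsupport φ := tsupport_mul_subset_left
  have hψs : tsupport ψ ⊆ Ω := hsub.trans hs
  have hψc : HasCompactSupport ψ := hc.mul_right
  have hψ : ContDiff ℝ 1 ψ := by
    apply contDiff_of_tsupp
    intro x hx
    have hxΩ := hψs hx
    have h1 : ContDiffAt ℝ 1 z x := (hz.contDiffAt (hΩ.mem_nhds hxΩ)).of_le (by norm_num)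
    exact hφ.contDiffAt.mul (hφ.contDiffAt.mul (h1.inv (hpos x hxΩ).ne'))
  have h0 : ∀ x, x ∉ Ω → φ x = 0 := fun x hx =>
    image_eq_zero_of_notMem_tsupport (fun h => hx (hs h))
  have h0' : ∀ x, x ∉ Ω → ∀ i, pd φ i x = 0 := fun x hx i =>
    pd_eq_zero_of_notMem (fun h => hx (hs h)) i
  have hibp := ibp hΩ hz hψ hψc hψs
  -- the square of `φ`
  set φ2 : E n → ℝ := fun x => φ x ^ 2 with hφ2def
  have hφ2 : ContDiff ℝ 1 φ2 := hφ.pow 2
  have hφ2e : φ2 = fun x => φ x * φ x := by funext x; simp only [hφ2def]; ring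
  have hφ2c : HasCompactSupport φ2 := by
    rw [hφ2e]
    exact hc.mul_right
  have hφ2s : tsupport φ2 ⊆ Ω := by
    rw [hφ2e]
    exact (tsupport_mul_subset_left (f := φ) (g := φ)).trans hs
  have hpd2 : ∀ x i, pd φ2 i x = 2 * φ x * pd φ i x := by
    intro x i
    have h1 : DifferentiableAt ℝ φ x := hφ.differentiable (by norm_num) x
    have h2 := h1.hasFDerivAt.mul h1.hasFDerivAt
    unfold pd
    have h3 : fderiv ℝ φ2 x = φ x • fderiv ℝ φ x + φ x • fderiv ℝ φ x := by
      rw [hφ2e]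
      exact h2.fderiv
    rw [h3]
    simp
    ring
  -- coordinates of the drift
  have hcc : ∀ i, ContinuousOn (fun x => c x i) Ω := fun i => (contDiffOn_coord hD.c1 i).continuousOn
  -- integrability
  have i1 : Integrable (fun x => V x * φ x ^ 2) :=
    integrable_mul_of_tsupport hΩ hV hφ2.continuous hφ2c hφ2s
  have i2 : Integrable (fun x => Δ z x * ψ x) :=
    integrable_mul_of_tsupport hΩ (continuousOn_lap hΩ hz) hψ.continuous hψc hψs
  have i3 : Integrable (fun x => ∑ i, pd z i x * pd ψ i x) := by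
    refine integrable_finsetSum _ fun i _ => ?_
    exact integrable_mul_of_tsupport hΩ (contDiffOn_one_pd hΩ hz i).continuousOn (continuous_pd hψ i)
      (hasCompactSupport_pd hψc i) ((tsupport_pd_subset ψ i).trans hψs)
  have i4 : Integrable (fun x => ∑ i, (pd φ i x) ^ 2) := by
    refine integrable_finsetSum _ fun i _ => ?_
    apply ((continuous_pd hφ i).pow 2).integrable_of_hasCompactSupport
    have h5 : HasCompactSupport (fun x => pd φ i x * pd φ i x) := (hasCompactSupport_pd hc i).mul_right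
    have h6 : (fun x => pd φ i x * pd φ i x) = pd φ i ^ 2 := by funext x; simp [sq]
    exact h6 ▸ h5
  have i5 : Integrable (fun x => (∑ i, c x i * pd z i x) * ψ x) := by
    apply integrable_mul_of_tsupport hΩ _ hψ.continuous hψc hψs
    exact continuousOn_finsetSum _ fun i _ =>
      (hcc i).mul (contDiffOn_one_pd hΩ hz i).continuousOn
  obtain ⟨i6, i7, hdiv⟩ := t_DIVG n Ω c φ2 hΩ hD.c1 hφ2 hφ2c hφ2s
  have i8 : Integrable (fun x => (∑ i, (c x i) ^ 2) * φ2 x) := by
    apply integrable_mul_of_tsupport hΩ _ hφ2.continuous hφ2c hφ2s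
    exact continuousOn_finsetSum _ fun i _ => (hcc i).pow 2
  have i9 : Integrable φ2 := hφ2.continuous.integrable_of_hasCompactSupport hφ2c
  -- the first inequality
  have s1 : ∫ x, V x * φ x ^ 2 ≤ ∫ x, (- (Δ z x * ψ x) + (∑ i, c x i * pd z i x) * ψ x) := by
    apply integral_mono i1 (i2.neg.add i5)
    intro x
    show V x * φ x ^ 2 ≤ - (Δ z x * ψ x) + (∑ i, c x i * pd z i x) * ψ x
    by_cases hx : x ∈ Ω
    · have h1 := hle x hx
      rw [fderiv_apply_eq z c x] at h1
      have h2 := hpos x hx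
      have h3 := mul_le_mul_of_nonneg_right h1 (by positivity : 0 ≤ φ x ^ 2 / z x)
      have h4 : (V x * z x) * (φ x ^ 2 / z x) = V x * φ x ^ 2 := by field_simp
      have h5 : (- Δ z x + ∑ i, c x i * pd z i x) * (φ x ^ 2 / z x) =
          - (Δ z x * ψ x) + (∑ i, c x i * pd z i x) * ψ x := by
        simp only [hψdef]; field_simp
      linarith
    · simp [hψdef, h0 x hx]
  have s2 : ∫ x, (- (Δ z x * ψ x) + (∑ i, c x i * pd z i x) * ψ x) =
      ∫ x, ((∑ i, pd z i x * pd ψ i x) + (∑ i, c x i * pd z i x) * ψ x) := by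
    have i2' : Integrable (fun x => - (Δ z x * ψ x)) := i2.neg
    rw [integral_add i2' i5, integral_add i3 i5, hibp, integral_neg]
  -- the pointwise inequality
  have s3 : ∫ x, ((∑ i, pd z i x * pd ψ i x) + (∑ i, c x i * pd z i x) * ψ x) ≤
      ∫ x, ((∑ i, (pd φ i x) ^ 2) + (1 / 2 * fderiv ℝ φ2 x (c x) +
        1 / 4 * ((∑ i, (c x i) ^ 2) * φ2 x))) := by
    apply integral_mono (i3.add i5) (i4.add ((i6.const_mul _).add (i8.const_mul _)))
    intro x
    show (∑ i, pd z i x * pd ψ i x) + (∑ i, c x i * pd z i x) * ψ x ≤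
      (∑ i, (pd φ i x) ^ 2) + (1 / 2 * fderiv ℝ φ2 x (c x) + 1 / 4 * ((∑ i, (c x i) ^ 2) * φ2 x))
    by_cases hx : x ∈ Ω
    · have hzd : DifferentiableAt ℝ z x :=
        (hz.contDiffAt (hΩ.mem_nhds hx)).differentiableAt (by norm_num)
      have hzx := hpos x hx
      have hφd : DifferentiableAt ℝ φ x := hφ.differentiable (by norm_num) x
      have hzi : HasFDerivAt (fun y => (z y)⁻¹) (-(z x ^ 2)⁻¹ • fderiv ℝ z x) x :=
        (hasDerivAt_inv hzx.ne').comp_hasFDerivAt x hzd.hasFDerivAt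
      have hder := hφd.hasFDerivAt.mul (hφd.hasFDerivAt.mul hzi)
      have hpd : ∀ i, pd ψ i x = φ x * (φ x * (-(z x ^ 2)⁻¹ * pd z i x) + (z x)⁻¹ * pd φ i x)
          + (φ x * (z x)⁻¹) * pd φ i x := by
        intro i
        unfold pd
        have h7 : fderiv ℝ ψ x = _ := hder.fderiv
        rw [h7]
        simp
        ring
      rw [fderiv_apply_eq φ2 c x, Finset.sum_mul, Finset.sum_mul, Finset.mul_sum, Finset.mul_sum,
        ← Finset.sum_add_distrib, ← Finset.sum_add_distrib, ← Finset.sum_add_distrib]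
      apply Finset.sum_le_sum
      intro i _
      rw [hpd i, hpd2 x i]
      have h8 : (pd φ i x ^ 2 + (1 / 2 * (c x i * (2 * φ x * pd φ i x)) +
          1 / 4 * ((c x i) ^ 2 * φ2 x))) -
          (pd z i x * (φ x * (φ x * (-(z x ^ 2)⁻¹ * pd z i x) + (z x)⁻¹ * pd φ i x)
            + (φ x * (z x)⁻¹) * pd φ i x) + c x i * pd z i x * ψ x) =
          (pd φ i x + c x i * φ x / 2 - φ x * pd z i x / z x) ^ 2 := by
        simp only [hψdef, hφ2def]
        field_simp
        ring
      nlinarith [sq_nonneg (pd φ i x + c x i * φ x / 2 - φ x * pd z i x / z x)]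
    · have h1 : ∀ i, pd ψ i x = 0 := fun i => pd_eq_zero_of_notMem (fun h => hx (hψs h)) i
      have h2 : ψ x = 0 := by simp [hψdef, h0 x hx]
      have h3 : φ2 x = 0 := by simp [hφ2def, h0 x hx]
      have h4 : fderiv ℝ φ2 x (c x) = 0 := by
        rw [fderiv_apply_eq]
        refine Finset.sum_eq_zero fun i _ => ?_
        rw [hpd2, h0 x hx]
        ring
      rw [h4, h3, h2]
      simp only [h1, mul_zero, Finset.sum_const_zero, add_zero]
      positivity
  -- the remaining terms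
  have s4 : ∫ x, fderiv ℝ φ2 x (c x) ≤ (n * B) * ∫ x, φ2 x := by
    rw [hdiv, ← integral_neg, ← integral_const_mul]
    apply integral_mono i7.neg (i9.const_mul _)
    intro x
    show - (dv c x * φ2 x) ≤ (n * B) * φ2 x
    have hφn : 0 ≤ φ2 x := sq_nonneg _
    by_cases hx : x ∈ Ω
    · have h1 : |dv c x| ≤ n * B := by
        unfold dv
        refine (Finset.abs_sum_le_sum_abs _ _).trans ?_
        have h2 : ∀ i ∈ (Finset.univ : Finset (Fin n)), |fderiv ℝ c x (bv i) i| ≤ B := by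
          intro i _
          have h3 : |fderiv ℝ c x (bv i) i| ≤ ‖fderiv ℝ c x (bv i)‖ := by
            have := PiLp.norm_apply_le (fderiv ℝ c x (bv i)) i
            simpa using this
          have h4 : ‖fderiv ℝ c x (bv i)‖ ≤ ‖fderiv ℝ c x‖ * ‖(bv i : E n)‖ :=
            (fderiv ℝ c x).le_opNorm _
          have h5 : ‖(bv i : E n)‖ = 1 := by
            unfold bv
            exact (EuclideanSpace.basisFun (Fin n) ℝ).orthonormal.1 i
          rw [h5, mul_one] at h4
          exact h3.trans (h4.trans (hD.bd' x hx))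
        refine (Finset.sum_le_card_nsmul _ _ _ h2).trans ?_
        simp
      have h2 := abs_le.1 h1
      nlinarith
    · have h3 : φ2 x = 0 := by simp [hφ2def, h0 x hx]
      rw [h3]
      simp
  have s5 : ∫ x, (∑ i, (c x i) ^ 2) * φ2 x ≤ B ^ 2 * ∫ x, φ2 x := by
    rw [← integral_const_mul]
    apply integral_mono i8 (i9.const_mul _)
    intro x
    show (∑ i, (c x i) ^ 2) * φ2 x ≤ B ^ 2 * φ2 x
    have hφn : 0 ≤ φ2 x := sq_nonneg _
    by_cases hx : x ∈ Ω
    · apply mul_le_mul_of_nonneg_right _ hφn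
      have h1 : ∑ i, (c x i) ^ 2 = ‖c x‖ ^ 2 := by
        rw [EuclideanSpace.norm_sq_eq]
        refine Finset.sum_congr rfl fun i _ => ?_
        rw [Real.norm_eq_abs, sq_abs]
      rw [h1]
      exact pow_le_pow_left₀ (norm_nonneg _) (hD.bd x hx) 2
    · have h3 : φ2 x = 0 := by simp [hφ2def, h0 x hx]
      rw [h3]
      simp
  have s6 : ∫ x, ((∑ i, (pd φ i x) ^ 2) + (1 / 2 * fderiv ℝ φ2 x (c x) +
        1 / 4 * ((∑ i, (c x i) ^ 2) * φ2 x))) = (∫ x, ∑ i, (pd φ i x) ^ 2) +
        (1 / 2 * (∫ x, fderiv ℝ φ2 x (c x)) + 1 / 4 * ∫ x, (∑ i, (c x i) ^ 2) * φ2 x) := by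
    have i6' : Integrable (fun x => 1 / 2 * fderiv ℝ φ2 x (c x)) := i6.const_mul _
    have i8' : Integrable (fun x => 1 / 4 * ((∑ i, (c x i) ^ 2) * φ2 x)) := i8.const_mul _
    have i10 : Integrable (fun x => 1 / 2 * fderiv ℝ φ2 x (c x) +
        1 / 4 * ((∑ i, (c x i) ^ 2) * φ2 x)) := i6'.add i8'
    rw [integral_add i4 i10, integral_add i6' i8', integral_const_mul, integral_const_mul]
  have s7 : ∫ x, φ x ^ 2 = ∫ x, φ2 x := rfl
  rw [s7]
  calc ∫ x, V x * φ x ^ 2 ≤ _ := s1
    _ = _ := s2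
    _ ≤ _ := s3
    _ = _ := s6
    _ ≤ _ := by linarith

end Pool.Agent.Y534.AR
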