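import Pool.Agent.Y520.AR.Stm
import Pool.Agent.H947R3.Stab

/-!
# AR-DOM: a bounded domain with local smooth defining functions has a global one
-/

set_option autoImplicit false

open MeasureTheory Set Filter Topology Laplacian InnerProductSpace
open scoped ContDiff

namespace Pool.Agent.Y534.AR

open Pool.Agent.H947R3 Pool.Agent.Y520.AR

variable {n : ℕ}

lemma line_hasDerivAt (p v : E n) (t : ℝ) : HasDerivAt (fun t : ℝ => p + t • v) v t := by
  simpa using ((hasDerivAt_id t).smul_const v).const_add p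

lemma deriv_nonneg_of_right {k : ℝ → ℝ} {k' : ℝ} (h : HasDerivAt k k' 0) (h0 : k 0 = 0)
    (hk : ∀ᶠ t in 𝓝[>] (0 : ℝ), 0 ≤ k t) : 0 ≤ k' := by
  have h1 := h.tendsto_slope_zero_right
  apply ge_of_tendsto h1
  filter_upwards [hk, self_mem_nhdsWithin] with t ht ht'
  have ht'' : (0 : ℝ) < t := ht'
  rw [zero_add, h0, sub_zero, smul_eq_mul]
  positivity

lemma eventually_neg_of_deriv {k : ℝ → ℝ} {k' : ℝ} (h : HasDerivAt k k' 0) (h0 : k 0 = 0)
    (hk : k' < 0) : ∀ᶠ t in 𝓝[>] (0 : ℝ), k t < 0 := by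
  have h1 := h.tendsto_slope_zero_right
  have h2 := h1.eventually_lt_const hk
  filter_upwards [h2, self_mem_nhdsWithin] with t ht ht'
  have ht'' : (0 : ℝ) < t := ht'
  rw [zero_add, h0, sub_zero, smul_eq_mul] at ht
  by_contra hcon
  push Not at hcon
  have : 0 ≤ t⁻¹ * k t := by positivity
  linarith

/-- **DOM** -/
theorem t_DOM : S_DOM := by
  intro n Ω hΩ hb hL
  choose! W ρ hWo hpW hρ hg hin hfr using hL
  have hχ : ∀ x ∈ frontier Ω, ∃ f : E n → ℝ, tsupport f ⊆ W x ∧ HasCompactSupport f ∧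
      ContDiff ℝ (2 : ℕ∞) f ∧ range f ⊆ Icc 0 1 ∧ f x = 1 := fun x hx =>
    exists_contDiff_tsupport_subset ((hWo x hx).mem_nhds (hpW x hx))
  choose! χ hχs _ hχd hχr hχ1 using hχ
  have hK : IsCompact (frontier Ω) :=
    hb.isCompact_closure.of_isClosed_subset isClosed_frontier frontier_subset_closure
  obtain ⟨t, ht, hcov⟩ := hK.elim_nhds_subcover (fun x => Function.support (χ x)) (fun x hx => by
    have h1 : IsOpen (Function.support (χ x)) :=
      (hχd x hx).continuous.isOpen_support
    apply h1.mem_nhds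
    rw [Function.mem_support, hχ1 x hx]
    exact one_ne_zero)
  obtain ⟨a, ha1, ha2, ha3⟩ := hΩ.exists_contDiff_support_eq (n := 2)
  obtain ⟨b, hb1, hb2, hb3⟩ :=
    (isClosed_closure (s := Ω)).isOpen_compl.exists_contDiff_support_eq (n := 2)
  have ha0 : ∀ x, 0 ≤ a x := fun x => (ha3 (mem_range_self x)).1
  have hb0 : ∀ x, 0 ≤ b x := fun x => (hb3 (mem_range_self x)).1
  have haz : ∀ x, x ∉ Ω → a x = 0 := by
    intro x hx
    rw [← ha1] at hx
    exact Function.notMem_support.1 hx
  have hap : ∀ x, x ∈ Ω → 0 < a x := by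
    intro x hx
    rw [← ha1] at hx
    exact lt_of_le_of_ne (ha0 x) (Ne.symm (Function.mem_support.1 hx))
  have hbz : ∀ x, x ∈ closure Ω → b x = 0 := by
    intro x hx
    have h1 : x ∉ Function.support b := by
      rw [hb1]
      exact fun h => h hx
    exact Function.notMem_support.1 h1
  -- the local functions
  set gg : E n → E n → ℝ := fun q x => χ q x * ρ q x with hgg
  have hχ0 : ∀ q ∈ t, ∀ x, 0 ≤ χ q x := fun q hq x => (hχr q (ht q hq) (mem_range_self x)).1
  have hχW : ∀ q ∈ t, ∀ x, x ∉ W q → χ q x = 0 := by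
    intro q hq x hx
    exact image_eq_zero_of_notMem_tsupport (fun h => hx (hχs q (ht q hq) h))
  have hgC : ∀ q ∈ t, ContDiff ℝ 2 (gg q) := by
    intro q hq
    apply contDiff_of_tsupp
    intro x hx
    have hxW : x ∈ W q := hχs q (ht q hq) (tsupport_mul_subset_left hx)
    have h1 : ContDiffAt ℝ 2 (ρ q) x :=
      ((hρ q (ht q hq)).contDiffAt ((hWo q (ht q hq)).mem_nhds hxW)).of_le
        (WithTop.coe_le_coe.2 (le_top : (2 : ℕ∞) ≤ ⊤))
    have h2 : ContDiffAt ℝ 2 (χ q) x := (hχd q (ht q hq)).contDiffAt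
    exact h2.mul h1
  have hgneg : ∀ q ∈ t, ∀ x ∈ Ω, gg q x ≤ 0 := by
    intro q hq x hx
    by_cases hxW : x ∈ W q
    · have h1 := (hin q (ht q hq) x hxW).1 hx
      exact mul_nonpos_of_nonneg_of_nonpos (hχ0 q hq x) h1.le
    · simp only [hgg]
      rw [hχW q hq x hxW, zero_mul]
  have hgpos : ∀ q ∈ t, ∀ x, x ∉ Ω → 0 ≤ gg q x := by
    intro q hq x hx
    by_cases hxW : x ∈ W q
    · have h1 : 0 ≤ ρ q x := by
        by_contra hcon
        push Not at hcon
        exact hx ((hin q (ht q hq) x hxW).2 hcon)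
      exact mul_nonneg (hχ0 q hq x) h1
    · simp only [hgg]
      rw [hχW q hq x hxW, zero_mul]
  have hg0 : ∀ q ∈ t, ∀ x ∈ frontier Ω, gg q x = 0 := by
    intro q hq x hx
    by_cases hxW : x ∈ W q
    · simp only [hgg]
      rw [(hfr q (ht q hq) x hxW).1 hx, mul_zero]
    · simp only [hgg]
      rw [hχW q hq x hxW, zero_mul]
  set d : E n → ℝ := fun x => -(∑ q ∈ t, gg q x) + a x - b x with hd
  have hsumC : ∀ s : Finset (E n), s ⊆ t → ContDiff ℝ 2 (fun x => ∑ q ∈ s, gg q x) := by
    intro s hs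
    exact ContDiff.sum fun q hq => hgC q (hs hq)
  have ha2' : ContDiff ℝ 2 a := ha2
  have hb2' : ContDiff ℝ 2 b := hb2
  have hdC : ContDiff ℝ 2 d := (((hsumC t (Finset.Subset.refl _)).neg).add ha2').sub hb2'
  refine ⟨d, hdC, ?_, hb, ?_⟩
  · intro x
    constructor
    · intro hx
      have h1 : ∑ q ∈ t, gg q x ≤ 0 := Finset.sum_nonpos fun q hq => hgneg q hq x hx
      have h2 := hap x hx
      have h3 := hbz x (subset_closure hx)
      simp only [hd]
      linarith
    · intro hx
      by_contra hcon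
      have h1 : 0 ≤ ∑ q ∈ t, gg q x := Finset.sum_nonneg fun q hq => hgpos q hq x hcon
      have h2 := haz x hcon
      have h3 := hb0 x
      simp only [hd] at hx
      linarith
  · intro p hp
    have hpΩ : p ∉ Ω := by
      rw [frontier, hΩ.interior_eq] at hp
      exact hp.2
    have hpc : p ∈ closure Ω := frontier_subset_closure hp
    obtain ⟨q, hq, hpq⟩ : ∃ q ∈ t, p ∈ Function.support (χ q) := by
      have := hcov hp
      simpa using this
    have hqf := ht q hq
    have hχp : 0 < χ q p := lt_of_le_of_ne (hχ0 q hq p) (Ne.symm (Function.mem_support.1 hpq))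
    have hpW' : p ∈ W q := by
      by_contra hcon
      exact hχp.ne' (hχW q hq p hcon)
    have hρp : ρ q p = 0 := (hfr q hqf p hpW').1 hp
    have hρd : DifferentiableAt ℝ (ρ q) p :=
      ((hρ q hqf).contDiffAt ((hWo q hqf).mem_nhds hpW')).differentiableAt (by norm_num)
    -- a direction pointing inwards
    obtain ⟨v, hv⟩ : ∃ v, fderiv ℝ (ρ q) p v < 0 := by
      have h1 := hg q hqf p hpW' hρp
      by_contra hcon
      push Not at hcon
      apply h1
      ext v
      have h2 := hcon v
      have h3 := hcon (-v)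
      rw [map_neg] at h3
      simp
      linarith
    have hline0 : p + (0 : ℝ) • v = p := by simp
    have hlc : Tendsto (fun t : ℝ => p + t • v) (𝓝[>] 0) (𝓝 p) := by
      have h1 : Continuous (fun t : ℝ => p + t • v) := by fun_prop
      have h2 := h1.tendsto 0
      rw [hline0] at h2
      exact h2.mono_left nhdsWithin_le_nhds
    have hev : ∀ᶠ s in 𝓝[>] (0 : ℝ), p + s • v ∈ Ω := by
      have h1 : HasDerivAt (fun s : ℝ => ρ q (p + s • v)) (fderiv ℝ (ρ q) p v) 0 := by
        have h2 : HasFDerivAt (ρ q) (fderiv ℝ (ρ q) p) (p + (0 : ℝ) • v) := by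
          rw [hline0]
          exact hρd.hasFDerivAt
        exact h2.comp_hasDerivAt 0 (line_hasDerivAt p v 0)
      have h3 := eventually_neg_of_deriv h1 (by rw [hline0]; exact hρp) hv
      have h4 : ∀ᶠ s in 𝓝[>] (0 : ℝ), p + s • v ∈ W q :=
        hlc.eventually ((hWo q hqf).mem_nhds hpW')
      filter_upwards [h3, h4] with s hs hs'
      exact (hin q hqf _ hs').2 hs
    -- the remaining terms
    set R : E n → ℝ := fun x => -(∑ r ∈ t.erase q, gg r x) + a x - b x with hR
    have hRC : ContDiff ℝ 2 R := (((hsumC _ (Finset.erase_subset _ _)).neg).add ha2').sub hb2'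
    have hRd : DifferentiableAt ℝ R p := hRC.differentiable (by norm_num) p
    have hRv : 0 ≤ fderiv ℝ R p v := by
      have h1 : HasDerivAt (fun s : ℝ => R (p + s • v)) (fderiv ℝ R p v) 0 := by
        have h2 : HasFDerivAt R (fderiv ℝ R p) (p + (0 : ℝ) • v) := by
          rw [hline0]
          exact hRd.hasFDerivAt
        exact h2.comp_hasDerivAt 0 (line_hasDerivAt p v 0)
      apply deriv_nonneg_of_right h1
      · show R (p + (0 : ℝ) • v) = 0
        rw [hline0]
        have h3 : ∑ r ∈ t.erase q, gg r p = 0 :=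
          Finset.sum_eq_zero fun r hr => hg0 r (Finset.mem_of_mem_erase hr) p hp
        simp only [hR]
        rw [h3, haz p hpΩ, hbz p hpc]
        norm_num
      · filter_upwards [hev] with s hs
        have h3 : ∑ r ∈ t.erase q, gg r (p + s • v) ≤ 0 :=
          Finset.sum_nonpos fun r hr => hgneg r (Finset.mem_of_mem_erase hr) _ hs
        have h4 := ha0 (p + s • v)
        have h5 := hbz _ (subset_closure hs)
        simp only [hR]
        linarith
    have hqd : HasFDerivAt (gg q) (χ q p • fderiv ℝ (ρ q) p + ρ q p • fderiv ℝ (χ q) p) p := by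
      have h1 : DifferentiableAt ℝ (χ q) p := (hχd q hqf).differentiable (by norm_num) p
      exact h1.hasFDerivAt.mul hρd.hasFDerivAt
    have hde : d = fun x => R x - gg q x := by
      funext x
      simp only [hd, hR]
      rw [← Finset.add_sum_erase t (fun r => gg r x) hq]
      ring
    have hdd : HasFDerivAt d (fderiv ℝ R p - (χ q p • fderiv ℝ (ρ q) p +
        ρ q p • fderiv ℝ (χ q) p)) p := by
      rw [hde]
      exact hRd.hasFDerivAt.sub hqd
    intro h0
    rw [hdd.fderiv] at h0
    have h1 := congrArg (fun L : E n →L[ℝ] ℝ => L v) h0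
    simp only [hρp, zero_smul, add_zero] at h1
    simp at h1
    have h2 : χ q p * fderiv ℝ (ρ q) p v < 0 := mul_neg_of_pos_of_neg hχp hv
    linarith

end Pool.Agent.Y534.AR
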